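import Mathlib

set_option autoImplicit false

/-!
# Linear algebra for NT (SCA, POS)
-/

namespace Pool.Agent.Helper68K9.NT

open Polynomial

universe v

/-- an operator commuting with all `F y F` is a scalar on the range of `F` -/
theorem scal {K V : Type*} [Field K] [AddCommGroup V] [Module K V]
    (F C : Module.End K V) (hF : F * F = F) (h : ∀ y, Commute C (F * y * F)) :
    ∃ α : K, C * F = α • F := by
  by_cases hF0 : F = 0
  · exact ⟨0, by rw [hF0]; simp⟩
  have : ∃ v, F v ≠ 0 := by
    by_contra hcon
    push Not at hcon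
    exact hF0 (LinearMap.ext hcon)
  obtain ⟨v, hv⟩ := this
  obtain ⟨φ, hφ⟩ : ∃ φ : Module.Dual K V, φ (F v) ≠ 0 := by
    by_contra hcon
    push Not at hcon
    exact hv ((Module.forall_dual_apply_eq_zero_iff K (F v)).1 hcon)
  have hFF : ∀ x, F (F x) = F x := fun x => by
    have := congrArg (fun g : Module.End K V => g x) hF
    simpa using this
  refine ⟨(φ (F v))⁻¹ * φ (F (C (F v))), ?_⟩
  ext w
  have h1 := congrArg (fun g : Module.End K V => g (F v)) (h (φ.smulRight w)).eq
  simp only [Module.End.mul_apply, LinearMap.smulRight_apply, map_smul, hFF] at h1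
  simp only [Module.End.mul_apply, LinearMap.smul_apply]
  rw [mul_smul, ← h1, smul_smul, inv_mul_cancel₀ hφ, one_smul]

theorem sca' {K V : Type*} [Field K] [CharZero K] [AddCommGroup V] [Module K V]
    (s E C : Module.End K V) (hs : s * s = 1) (hsE : Commute s E) (hE : E * E = E)
    (hCE : C * E = C)
    (hz : ∀ z, Commute s z → Commute E z → Commute C z) :
    ∃ α β : K, C = α • (E * ((2 : K)⁻¹ • (1 + s))) + β • (E * ((2 : K)⁻¹ • (1 - s))) := by
  have h2 : (2 : K) ≠ 0 := two_ne_zero
  have hhalf : (2 : K)⁻¹ + (2 : K)⁻¹ = 1 := by rw [← two_mul, mul_inv_cancel₀ h2]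
  set P : Module.End K V := (2 : K)⁻¹ • (1 + s) with hP
  set Q : Module.End K V := (2 : K)⁻¹ • (1 - s) with hQ
  have hsP : s * P = P := by
    rw [hP, mul_smul_comm, mul_add, mul_one, hs, add_comm]
  have hPs : P * s = P := by
    rw [hP, smul_mul_assoc, add_mul, one_mul, hs, add_comm]
  have hsQ : s * Q = -Q := by
    rw [hQ, mul_smul_comm, mul_sub, mul_one, hs, ← smul_neg, neg_sub]
  have hQs : Q * s = -Q := by
    rw [hQ, smul_mul_assoc, sub_mul, one_mul, hs, ← smul_neg, neg_sub]
  have hPP : P * P = P := by
    conv_lhs => rw [hP]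
    rw [smul_mul_assoc, add_mul, one_mul, hsP, ← two_smul K P, smul_smul, inv_mul_cancel₀ h2,
      one_smul]
  have hQQ : Q * Q = Q := by
    conv_lhs => rw [hQ]
    rw [smul_mul_assoc, sub_mul, one_mul, hsQ, sub_neg_eq_add, ← two_smul K Q, smul_smul,
      inv_mul_cancel₀ h2, one_smul]
  have hPQ : P + Q = 1 := by
    rw [hP, hQ, ← smul_add, add_add_sub_cancel, ← two_smul K (1 : Module.End K V), smul_smul,
      inv_mul_cancel₀ h2, one_smul]
  have hPE : P * E = E * P := by
    rw [hP, smul_mul_assoc, mul_smul_comm, add_mul, mul_add, one_mul, mul_one, hsE.eq]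
  have hQE : Q * E = E * Q := by
    rw [hQ, smul_mul_assoc, mul_smul_comm, sub_mul, mul_sub, one_mul, mul_one, hsE.eq]
  obtain ⟨α, hα⟩ := scal (E * P) C (by
    calc E * P * (E * P) = E * (P * E) * P := by simp only [mul_assoc]
      _ = E * E * (P * P) := by rw [hPE]; simp only [mul_assoc]
      _ = E * P := by rw [hE, hPP]) (fun y => hz _ (by
        change s * (E * P * y * (E * P)) = E * P * y * (E * P) * s
        have h1 : s * (E * P) = E * P := by rw [← mul_assoc, hsE.eq, mul_assoc, hsP]
        have h2 : E * P * s = E * P := by rw [mul_assoc, hPs]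
        calc s * (E * P * y * (E * P)) = (s * (E * P)) * y * (E * P) := by simp only [mul_assoc]
          _ = E * P * y * (E * P) := by rw [h1]
          _ = E * P * y * (E * P * s) := by rw [h2]
          _ = E * P * y * (E * P) * s := by simp only [mul_assoc]) (by
        change E * (E * P * y * (E * P)) = E * P * y * (E * P) * E
        have h1 : E * (E * P) = E * P := by rw [← mul_assoc, hE]
        have h2 : E * P * E = E * P := by rw [mul_assoc, hPE, ← mul_assoc, hE]
        calc E * (E * P * y * (E * P)) = (E * (E * P)) * y * (E * P) := by simp only [mul_assoc]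
          _ = E * P * y * (E * P) := by rw [h1]
          _ = E * P * y * (E * P * E) := by rw [h2]
          _ = E * P * y * (E * P) * E := by simp only [mul_assoc]))
  obtain ⟨β, hβ⟩ := scal (E * Q) C (by
    calc E * Q * (E * Q) = E * (Q * E) * Q := by simp only [mul_assoc]
      _ = E * E * (Q * Q) := by rw [hQE]; simp only [mul_assoc]
      _ = E * Q := by rw [hE, hQQ]) (fun y => hz _ (by
        change s * (E * Q * y * (E * Q)) = E * Q * y * (E * Q) * s
        have h1 : s * (E * Q) = -(E * Q) := by rw [← mul_assoc, hsE.eq, mul_assoc, hsQ, mul_neg]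
        have h2 : E * Q * s = -(E * Q) := by rw [mul_assoc, hQs, mul_neg]
        calc s * (E * Q * y * (E * Q)) = (s * (E * Q)) * y * (E * Q) := by simp only [mul_assoc]
          _ = E * Q * y * (E * Q * s) := by rw [h1, h2]; simp only [neg_mul, mul_neg]
          _ = E * Q * y * (E * Q) * s := by simp only [mul_assoc]) (by
        change E * (E * Q * y * (E * Q)) = E * Q * y * (E * Q) * E
        have h1 : E * (E * Q) = E * Q := by rw [← mul_assoc, hE]
        have h2 : E * Q * E = E * Q := by rw [mul_assoc, hQE, ← mul_assoc, hE]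
        calc E * (E * Q * y * (E * Q)) = (E * (E * Q)) * y * (E * Q) := by simp only [mul_assoc]
          _ = E * Q * y * (E * Q) := by rw [h1]
          _ = E * Q * y * (E * Q * E) := by rw [h2]
          _ = E * Q * y * (E * Q) * E := by simp only [mul_assoc]))
  refine ⟨α, β, ?_⟩
  rw [← hα, ← hβ, ← mul_add, ← mul_add, hPQ, mul_one, hCE]

/-! ## POS -/

theorem aeval_mul_of {K A : Type*} [Field K] [Ring A] [Algebra K A] (a b e : A)
    (h : a * e = b * e) (hb : Commute b e) (f : K[X]) : aeval a f * e = aeval b f * e := by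
  have hpow : ∀ k : ℕ, a ^ k * e = b ^ k * e := by
    intro k
    induction k with
    | zero => simp
    | succ k ih =>
      rw [pow_succ, mul_assoc, h, hb.eq, ← mul_assoc, ih, mul_assoc, ← hb.eq, ← mul_assoc,
        ← pow_succ]
  induction f using Polynomial.induction_on' with
  | add p q hp hq => rw [map_add, map_add, add_mul, add_mul, hp, hq]
  | monomial n c =>
    rw [aeval_monomial, aeval_monomial, mul_assoc, mul_assoc, hpow]

/-- `∏ (X - i)`, `i ≤ n` -/
noncomputable def nod (K : Type*) [Field K] (n : ℕ) : K[X] :=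
  ∏ l ∈ Finset.range (n + 1), (X - C (l : K))

theorem nod_comp (K : Type*) [Field K] (n : ℕ) :
    (nod K (n + 1)).comp (X + 1) = (X + 1) * nod K n := by
  unfold nod
  rw [Polynomial.prod_comp, Finset.prod_range_succ']
  simp only [sub_comp, X_comp, C_comp, Nat.cast_zero, map_zero, sub_zero]
  rw [mul_comm]
  congr 1
  refine Finset.prod_congr rfl fun l _ => ?_
  push_cast
  rw [map_add, map_one]
  ring

theorem nod_succ (K : Type*) [Field K] (n : ℕ) :
    nod K (n + 1) = nod K n * (X - C ((n + 1 : ℕ) : K)) := by
  unfold nod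
  rw [Finset.prod_range_succ]

theorem nod_sum {K A : Type*} [Field K] [Ring A] [Algebra K A] (n : ℕ) (e : Fin n → A)
    (he : ∀ j, e j * e j = e j) (hc : ∀ i j, Commute (e i) (e j)) :
    aeval (∑ j, e j) (nod K n) = 0 := by
  induction n with
  | zero => simp [nod]
  | succ n ih =>
    rw [Fin.sum_univ_castSucc]
    set D := ∑ j : Fin n, e j.castSucc with hD
    set g := e (Fin.last n) with hg
    have hDn : aeval D (nod K n) = 0 := ih _ (fun j => he _) (fun i j => hc _ _)
    have hgg : g * g = g := he _
    have hDg : Commute D g := by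
      rw [hD]
      exact Commute.sum_left _ _ _ fun j _ => hc _ _
    have h1 : aeval (D + g) (nod K (n + 1)) * g = 0 := by
      rw [aeval_mul_of (D + g) (D + 1) g (by rw [add_mul, add_mul, one_mul, hgg])
        (hDg.add_left (Commute.one_left g))]
      have : aeval (D + 1) (nod K (n + 1)) = aeval D ((nod K (n + 1)).comp (X + 1)) := by
        rw [aeval_comp]
        simp
      rw [this, nod_comp, map_mul, hDn, mul_zero, zero_mul]
    have h2 : aeval (D + g) (nod K (n + 1)) * (1 - g) = 0 := by
      rw [aeval_mul_of (D + g) D (1 - g) (by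
        rw [add_mul, mul_sub g, mul_one, hgg, sub_self, add_zero])
        ((Commute.one_right D).sub_right hDg)]
      rw [nod_succ, map_mul, hDn, zero_mul, zero_mul]
    have h3 : aeval (D + g) (nod K (n + 1)) =
        aeval (D + g) (nod K (n + 1)) * g + aeval (D + g) (nod K (n + 1)) * (1 - g) := by
      rw [← mul_add, add_sub_cancel, mul_one]
    rw [h3, h1, h2, add_zero]

theorem mul_basis {K : Type*} [Field K] (n i : ℕ) (hi : i ∈ Finset.range (n + 1)) :
    ∃ c : K, (X - C (i : K)) * Lagrange.basis (Finset.range (n + 1)) (fun j : ℕ => (j : K)) i =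
      C c * nod K n := by
  refine ⟨∏ j ∈ (Finset.range (n + 1)).erase i, ((i : K) - j)⁻¹, ?_⟩
  unfold Lagrange.basis Lagrange.basisDivisor nod
  rw [Finset.prod_mul_distrib, ← Finset.mul_prod_erase _ _ hi, map_prod]
  ring

theorem pos' {K U : Type*} [Field K] [CharZero K] [AddCommGroup U] [Module K U]
    [Module.Finite K U] (n : ℕ) (e : Fin n → Module.End K U) (T : Module.End K U)
    (hT : T * T = T) (he : ∀ j, e j * e j = e j) (hc : ∀ i j, Commute (e i) (e j))
    (hTD : Commute T (∑ j, e j)) :
    ∃ t : ℕ, LinearMap.trace K U (T * ∑ j, e j) = (t : K) ∧ (t = 0 → T * ∑ j, e j = 0) := by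
  classical
  set D := ∑ j, e j with hD
  set s := Finset.range (n + 1) with hs
  set P : ℕ → Module.End K U := fun i => aeval D (Lagrange.basis s (fun j : ℕ => (j : K)) i)
    with hP
  have hnod : aeval D (nod K n) = 0 := nod_sum n e he hc
  have hinj : Set.InjOn (fun j : ℕ => (j : K)) (s : Set ℕ) := fun a _ b _ h =>
    Nat.cast_injective (R := K) h
  have hsum : ∑ i ∈ s, P i = 1 := by
    rw [hP]
    simp only
    rw [← map_sum, Lagrange.sum_basis hinj ⟨0, by simp [hs]⟩, map_one]
  have hDP : ∀ i ∈ s, D * P i = (i : K) • P i := by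
    intro i hi
    obtain ⟨c, hc'⟩ := mul_basis (K := K) n i hi
    have h1 := congrArg (aeval D) hc'
    rw [map_mul, map_mul, hnod, mul_zero, map_sub, aeval_X, aeval_C, sub_mul, sub_eq_zero] at h1
    rw [h1, ← Algebra.smul_def]
  have hcomm : ∀ i j, P i * P j = P j * P i := by
    intro i j
    rw [hP]
    simp only
    rw [← map_mul, mul_comm, map_mul]
  have hDcomm : ∀ i, D * P i = P i * D := by
    intro i
    have h1 : aeval D (X * Lagrange.basis s (fun j : ℕ => (j : K)) i) =
        aeval D (Lagrange.basis s (fun j : ℕ => (j : K)) i * X) := by rw [mul_comm]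
    rwa [map_mul, map_mul, aeval_X] at h1
  have horth : ∀ i ∈ s, ∀ j ∈ s, i ≠ j → P i * P j = 0 := by
    intro i hi j hj hij
    have h1 : D * (P i * P j) = (i : K) • (P i * P j) := by
      rw [← mul_assoc, hDP i hi, smul_mul_assoc]
    have h2 : D * (P i * P j) = (j : K) • (P i * P j) := by
      rw [← mul_assoc, hDcomm, mul_assoc, hDP j hj, mul_smul_comm]
    have h3 : ((i : K) - j) • (P i * P j) = 0 := by
      rw [sub_smul, ← h1, ← h2, sub_self]
    rcases smul_eq_zero.1 h3 with h | h
    · exfalso
      apply hij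
      have : (i : K) = j := sub_eq_zero.1 h
      exact_mod_cast this
    · exact h
  have hidem : ∀ i ∈ s, P i * P i = P i := by
    intro i hi
    have h1 : P i * ∑ j ∈ s, P j = P i := by rw [hsum, mul_one]
    rw [Finset.mul_sum, Finset.sum_eq_single i (fun j hj hji => horth i hi j hj hji.symm)
      (fun h => absurd hi h)] at h1
    exact h1
  have hTP : ∀ i, T * P i = P i * T := by
    intro i
    have h1 : ∀ f : K[X], Commute T (aeval D f) := by
      intro f
      induction f using Polynomial.induction_on' with
      | add p q hp hq => rw [map_add]; exact hp.add_right hq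
      | monomial m c =>
        rw [aeval_monomial]
        exact (show Commute T (algebraMap K (Module.End K U) c) from
          (Algebra.commutes c T).symm).mul_right (hTD.pow_right m)
    exact (h1 _).eq
  have hTPi : ∀ i ∈ s, IsIdempotentElem (T * P i) := by
    intro i hi
    change T * P i * (T * P i) = T * P i
    calc T * P i * (T * P i) = T * (P i * T) * P i := by simp only [mul_assoc]
      _ = T * T * (P i * P i) := by rw [← hTP]; simp only [mul_assoc]
      _ = T * P i := by rw [hT, hidem i hi]
  have hTDs : T * D = ∑ i ∈ s, (i : K) • (T * P i) := by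
    calc T * D = T * D * ∑ i ∈ s, P i := by rw [hsum, mul_one]
      _ = ∑ i ∈ s, (i : K) • (T * P i) := by
          rw [Finset.mul_sum]
          refine Finset.sum_congr rfl fun i hi => ?_
          rw [mul_assoc, hDP i hi, mul_smul_comm]
  refine ⟨∑ i ∈ s, i * Module.finrank K (LinearMap.range (T * P i)), ?_, ?_⟩
  · rw [hTDs, map_sum]
    push_cast
    refine Finset.sum_congr rfl fun i hi => ?_
    rw [map_smul, (LinearMap.IsIdempotentElem.isProj_range _ (hTPi i hi)).trace, smul_eq_mul]
  · intro h0
    rw [hTDs]
    refine Finset.sum_eq_zero fun i hi => ?_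
    have h1 := (Finset.sum_eq_zero_iff.1 h0) i hi
    rcases Nat.mul_eq_zero.1 h1 with h | h
    · rw [h]; simp
    · have h2 : LinearMap.trace K U (T * P i) = 0 := by
        rw [(LinearMap.IsIdempotentElem.isProj_range _ (hTPi i hi)).trace, h, Nat.cast_zero]
      rw [(LinearMap.IsIdempotentElem.trace_eq_zero_iff (hTPi i hi)).1 h2, smul_zero]

/-! ## ABS -/

theorem nondeg {K V : Type*} [Field K] [AddCommGroup V] [Module K V] [Module.Finite K V]
    (A : Module.End K V) (h : ∀ y, LinearMap.trace K V (A * y) = 0) : A = 0 := by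
  ext w
  rw [LinearMap.zero_apply, ← Module.forall_dual_apply_eq_zero_iff K (A w)]
  intro φ
  have h1 := h (φ.smulRight w)
  have h2 : A * φ.smulRight w = φ.smulRight (A w) := by
    ext x
    simp
  rw [h2, LinearMap.trace_smulRight] at h1
  exact h1

theorem even_nondeg {K V : Type*} [Field K] [CharZero K] [AddCommGroup V] [Module K V]
    [Module.Finite K V] (s A : Module.End K V) (hs : s * s = 1) (hA : Commute s A)
    (h : ∀ y, Commute s y → LinearMap.trace K V (A * y) = 0) : A = 0 := by
  refine nondeg A fun y => ?_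
  have h1 := h (y + s * y * s) (by
    change s * (y + s * y * s) = (y + s * y * s) * s
    rw [mul_add, add_mul]
    have e1 : s * (s * y * s) = y * s := by
      calc s * (s * y * s) = (s * s) * y * s := by simp only [mul_assoc]
        _ = y * s := by rw [hs, one_mul]
    have e2 : s * y * s * s = s * y := by rw [mul_assoc, hs, mul_one]
    rw [e1, e2, add_comm])
  have h2 : LinearMap.trace K V (A * (s * y * s)) = LinearMap.trace K V (A * y) := by
    calc LinearMap.trace K V (A * (s * y * s)) = LinearMap.trace K V ((A * s * y) * s) := by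
          simp only [mul_assoc]
      _ = LinearMap.trace K V (s * (A * s * y)) := LinearMap.trace_mul_comm K _ _
      _ = LinearMap.trace K V (A * y) := by
          congr 1
          calc s * (A * s * y) = (s * A) * s * y := by simp only [mul_assoc]
            _ = A * (s * s) * y := by rw [hA.eq]; simp only [mul_assoc]
            _ = A * y := by rw [hs, mul_one]
  rw [mul_add, map_add, h2, ← two_mul] at h1
  rcases mul_eq_zero.1 h1 with h3 | h3
  · exact absurd h3 two_ne_zero
  · exact h3

theorem abs' {K V U : Type*} [Field K] [CharZero K] [AddCommGroup V] [Module K V]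
    [Module.Finite K V] [AddCommGroup U] [Module K U] [Module.Finite K U]
    (s E C : Module.End K V) (S T : Module.End K U) (n : ℕ)
    (i : Fin n → (Module.End K V →ₐ[K] Module.End K U)) (ε : K)
    (hn : 0 < n) (hs : s * s = 1) (hsE : Commute s E) (hE : E * E = E) (hsC : Commute s C)
    (hT : T * T = T) (hT0 : T ≠ 0) (hε : ε = 1 ∨ ε = -1) (hST : S * T = ε • T)
    (hi : ∀ a b, a ≠ b → ∀ y z, Commute (i a y) (i b z))
    (hTE : ∀ j, T * i j E = T ∧ i j E * T = T)
    (hTD : ∀ z, Commute s z → Commute E z → Commute T (∑ j, i j z))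
    (htr : ∀ y, Commute s y → LinearMap.trace K V (s * C * y) =
      LinearMap.trace K U (S * T * ∑ j, i j y)) :
    (∃ α β : K, α ≠ β ∧
      C = α • (E * ((2 : K)⁻¹ • (1 + s))) + β • (E * ((2 : K)⁻¹ • (1 - s)))) ∨
    E * (1 + s) = 0 ∨ E * (1 - s) = 0 := by
  classical
  have hε0 : ε ≠ 0 := by rcases hε with h | h <;> rw [h] <;> simp
  have hcancel : ∀ A : Module.End K V, s * A = 0 → A = 0 := by
    intro A h
    calc A = s * (s * A) := by rw [← mul_assoc, hs, one_mul]
      _ = 0 := by rw [h, mul_zero]
  -- C E = C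
  have hCE : C * E = C := by
    have h1 : s * (C * E - C) = 0 := by
      refine even_nondeg s _ hs ?_ ?_
      · exact (Commute.refl s).mul_right ((hsC.mul_right hsE).sub_right hsC)
      · intro y hy
        have h2 := htr (E * y) (hsE.mul_right hy)
        have h3 := htr y hy
        have h4 : S * T * ∑ j, i j (E * y) = S * T * ∑ j, i j y := by
          rw [Finset.mul_sum, Finset.mul_sum]
          refine Finset.sum_congr rfl fun j _ => ?_
          rw [map_mul]
          calc S * T * (i j E * i j y) = S * (T * i j E) * i j y := by simp only [mul_assoc]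
            _ = S * T * i j y := by rw [(hTE j).1]
        rw [h4, ← h3] at h2
        rw [mul_sub, sub_mul, map_sub, sub_eq_zero, ← h2]
        simp only [mul_assoc]
    exact sub_eq_zero.1 (hcancel _ h1)
  have hEC : E * C = C := by
    have h1 : s * (E * C - C) = 0 := by
      refine even_nondeg s _ hs ?_ ?_
      · exact (Commute.refl s).mul_right ((hsE.mul_right hsC).sub_right hsC)
      · intro y hy
        have h2 := htr (y * E) (hy.mul_right hsE)
        have h3 := htr y hy
        have h4 : LinearMap.trace K U (S * T * ∑ j, i j (y * E)) =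
            LinearMap.trace K U (S * T * ∑ j, i j y) := by
          rw [Finset.mul_sum, Finset.mul_sum, map_sum, map_sum]
          refine Finset.sum_congr rfl fun j _ => ?_
          rw [map_mul (i j), hST, smul_mul_assoc, smul_mul_assoc, map_smul, map_smul]
          congr 1
          calc LinearMap.trace K U (T * (i j y * i j E)) =
                LinearMap.trace K U ((T * i j y) * i j E) := by simp only [mul_assoc]
            _ = LinearMap.trace K U (i j E * (T * i j y)) := LinearMap.trace_mul_comm K _ _
            _ = LinearMap.trace K U (T * i j y) := by rw [← mul_assoc, (hTE j).2]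
        rw [h4, ← h3] at h2
        rw [mul_sub, sub_mul, map_sub, sub_eq_zero, ← h2]
        calc LinearMap.trace K V (s * (E * C) * y) = LinearMap.trace K V ((s * E) * (C * y)) := by
              simp only [mul_assoc]
          _ = LinearMap.trace K V (E * (s * C * y)) := by rw [hsE.eq]; simp only [mul_assoc]
          _ = LinearMap.trace K V ((s * C * y) * E) := LinearMap.trace_mul_comm K _ _
          _ = LinearMap.trace K V (s * C * (y * E)) := by simp only [mul_assoc]
    exact sub_eq_zero.1 (hcancel _ h1)
  -- C commutes with even operators commuting with E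
  have hz : ∀ z, Commute s z → Commute E z → Commute C z := by
    intro z hsz hEz
    have h1 : s * (C * z - z * C) = 0 := by
      refine even_nondeg s _ hs ?_ ?_
      · exact (Commute.refl s).mul_right ((hsC.mul_right hsz).sub_right (hsz.mul_right hsC))
      · intro y hy
        have h2 := htr (z * y - y * z) ((hsz.mul_right hy).sub_right (hy.mul_right hsz))
        have h3 : ∑ j, i j (z * y - y * z) =
            (∑ j, i j z) * (∑ j, i j y) - (∑ j, i j y) * (∑ j, i j z) := by
          have e1 : (∑ j, i j z) * (∑ j, i j y) = ∑ a, ∑ b, i a z * i b y := by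
            rw [Finset.sum_mul_sum]
          have e2 : (∑ j, i j y) * (∑ j, i j z) = ∑ a, ∑ b, i b y * i a z := by
            rw [Finset.sum_mul_sum, Finset.sum_comm]
          rw [e1, e2, ← Finset.sum_sub_distrib]
          refine Finset.sum_congr rfl fun a _ => ?_
          rw [← Finset.sum_sub_distrib, Finset.sum_eq_single a]
          · rw [map_sub, map_mul, map_mul]
          · intro b _ hb
            rw [sub_eq_zero]
            exact (hi a b hb.symm z y).eq
          · intro h
            exact absurd (Finset.mem_univ a) h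
        rw [h3, hST, smul_mul_assoc, map_smul] at h2
        simp only [mul_sub, map_sub] at h2
        have h4 : LinearMap.trace K U (T * ((∑ j, i j y) * (∑ j, i j z))) =
            LinearMap.trace K U (T * ((∑ j, i j z) * (∑ j, i j y))) := by
          calc LinearMap.trace K U (T * ((∑ j, i j y) * (∑ j, i j z))) =
                LinearMap.trace K U ((T * (∑ j, i j y)) * (∑ j, i j z)) := by rw [mul_assoc]
            _ = LinearMap.trace K U ((∑ j, i j z) * (T * (∑ j, i j y))) :=
                LinearMap.trace_mul_comm K _ _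
            _ = LinearMap.trace K U (T * ((∑ j, i j z) * (∑ j, i j y))) := by
                rw [← mul_assoc, ← (hTD z hsz hEz).eq, mul_assoc]
        rw [h4, sub_self, smul_zero] at h2
        have h5 : LinearMap.trace K V (s * (z * C) * y) = LinearMap.trace K V (s * C * (y * z)) := by
          calc LinearMap.trace K V (s * (z * C) * y) = LinearMap.trace K V ((s * z) * (C * y)) := by
                simp only [mul_assoc]
            _ = LinearMap.trace K V (z * (s * C * y)) := by rw [hsz.eq]; simp only [mul_assoc]
            _ = LinearMap.trace K V ((s * C * y) * z) := LinearMap.trace_mul_comm K _ _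
            _ = LinearMap.trace K V (s * C * (y * z)) := by simp only [mul_assoc]
        rw [mul_sub, sub_mul, map_sub, h5]
        rw [← h2]
        simp only [mul_assoc]
    exact sub_eq_zero.1 (hcancel _ h1)
  obtain ⟨α, β, hC⟩ := sca' s E C hs hsE hE hCE hz
  by_cases hp0 : E * (1 + s) = 0
  · exact Or.inr (Or.inl hp0)
  by_cases hq0 : E * (1 - s) = 0
  · exact Or.inr (Or.inr hq0)
  refine Or.inl ⟨α, β, ?_, hC⟩
  intro hαβ
  have h2 : (2 : K) ≠ 0 := two_ne_zero
  set P : Module.End K V := (2 : K)⁻¹ • (1 + s) with hP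
  set Q : Module.End K V := (2 : K)⁻¹ • (1 - s) with hQ
  have hsP : s * P = P := by
    rw [hP, mul_smul_comm, mul_add, mul_one, hs, add_comm]
  have hPs : P * s = P := by
    rw [hP, smul_mul_assoc, add_mul, one_mul, hs, add_comm]
  have hsQ : s * Q = -Q := by
    rw [hQ, mul_smul_comm, mul_sub, mul_one, hs, ← smul_neg, neg_sub]
  have hQs : Q * s = -Q := by
    rw [hQ, smul_mul_assoc, sub_mul, one_mul, hs, ← smul_neg, neg_sub]
  have hPP : P * P = P := by
    conv_lhs => rw [hP]
    rw [smul_mul_assoc, add_mul, one_mul, hsP, ← two_smul K P, smul_smul, inv_mul_cancel₀ h2,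
      one_smul]
  have hQQ : Q * Q = Q := by
    conv_lhs => rw [hQ]
    rw [smul_mul_assoc, sub_mul, one_mul, hsQ, sub_neg_eq_add, ← two_smul K Q, smul_smul,
      inv_mul_cancel₀ h2, one_smul]
  have hPQ : P + Q = 1 := by
    rw [hP, hQ, ← smul_add, add_add_sub_cancel, ← two_smul K (1 : Module.End K V), smul_smul,
      inv_mul_cancel₀ h2, one_smul]
  have hPQ0 : P * Q = 0 := by
    have : P * P + P * Q = P := by rw [← mul_add, hPQ, mul_one]
    rwa [hPP, add_eq_left] at this
  have hQP0 : Q * P = 0 := by
    have : Q * P + Q * Q = Q := by rw [← mul_add, hPQ, mul_one]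
    rwa [hQQ, add_eq_right] at this
  have hPE : P * E = E * P := by
    rw [hP, smul_mul_assoc, mul_smul_comm, add_mul, mul_add, one_mul, mul_one, hsE.eq]
  have hQE : Q * E = E * Q := by
    rw [hQ, smul_mul_assoc, mul_smul_comm, sub_mul, mul_sub, one_mul, mul_one, hsE.eq]
  have hF1 : (E * P) * (E * P) = E * P := by
    calc E * P * (E * P) = E * (P * E) * P := by simp only [mul_assoc]
      _ = E * E * (P * P) := by rw [hPE]; simp only [mul_assoc]
      _ = E * P := by rw [hE, hPP]
  have hF2 : (E * Q) * (E * Q) = E * Q := by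
    calc E * Q * (E * Q) = E * (Q * E) * Q := by simp only [mul_assoc]
      _ = E * E * (Q * Q) := by rw [hQE]; simp only [mul_assoc]
      _ = E * Q := by rw [hE, hQQ]
  have hsF1 : s * (E * P) = E * P := by rw [← mul_assoc, hsE.eq, mul_assoc, hsP]
  have hF1s : (E * P) * s = E * P := by rw [mul_assoc, hPs]
  have hsF2 : s * (E * Q) = -(E * Q) := by rw [← mul_assoc, hsE.eq, mul_assoc, hsQ, mul_neg]
  have hF2s : (E * Q) * s = -(E * Q) := by rw [mul_assoc, hQs, mul_neg]
  have hEF1 : E * (E * P) = E * P := by rw [← mul_assoc, hE]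
  have hF1E : (E * P) * E = E * P := by rw [mul_assoc, hPE, ← mul_assoc, hE]
  have hEF2 : E * (E * Q) = E * Q := by rw [← mul_assoc, hE]
  have hF2E : (E * Q) * E = E * Q := by rw [mul_assoc, hQE, ← mul_assoc, hE]
  have hF12 : (E * P) * (E * Q) = 0 := by
    calc E * P * (E * Q) = E * (P * E) * Q := by simp only [mul_assoc]
      _ = E * E * (P * Q) := by rw [hPE]; simp only [mul_assoc]
      _ = 0 := by rw [hPQ0, mul_zero]
  have hF21 : (E * Q) * (E * P) = 0 := by
    calc E * Q * (E * P) = E * (Q * E) * P := by simp only [mul_assoc]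
      _ = E * E * (Q * P) := by rw [hQE]; simp only [mul_assoc]
      _ = 0 := by rw [hQP0, mul_zero]
  have hCF1 : C * (E * P) = α • (E * P) := by
    rw [hC, add_mul, smul_mul_assoc, smul_mul_assoc, hF1, hF21, smul_zero, add_zero]
  have hCF2 : C * (E * Q) = β • (E * Q) := by
    rw [hC, add_mul, smul_mul_assoc, smul_mul_assoc, hF12, hF2, smul_zero, zero_add]
  -- the natural numbers
  have hpos : ∀ F : Module.End K V, F * F = F → Commute s F → Commute E F →
      ∃ t : ℕ, LinearMap.trace K U (T * ∑ j, i j F) = (t : K) ∧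
        (t = 0 → T * ∑ j, i j F = 0) := by
    intro F hF hsF hEF
    refine pos' n (fun j => i j F) T hT (fun j => ?_) (fun a b => ?_) (hTD F hsF hEF)
    · rw [← map_mul, hF]
    · by_cases hab : a = b
      · rw [hab]
      · exact hi a b hab F F
  obtain ⟨t₁, ht₁, ht₁'⟩ := hpos (E * P) hF1 (hsF1.trans hF1s.symm) (hEF1.trans hF1E.symm)
  obtain ⟨t₂, ht₂, ht₂'⟩ := hpos (E * Q) hF2 (hsF2.trans hF2s.symm) (hEF2.trans hF2E.symm)
  have htr1 := htr (E * P) (hsF1.trans hF1s.symm)
  have htr2 := htr (E * Q) (hsF2.trans hF2s.symm)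
  rw [mul_assoc, hCF1, mul_smul_comm, hsF1, map_smul, hST, smul_mul_assoc, map_smul, ht₁] at htr1
  rw [mul_assoc, hCF2, mul_smul_comm, hsF2, smul_neg, map_neg, map_smul, hST, smul_mul_assoc,
    map_smul, ht₂] at htr2
  rw [(LinearMap.IsIdempotentElem.isProj_range _ (show IsIdempotentElem (E * P) from hF1)).trace]
    at htr1
  rw [(LinearMap.IsIdempotentElem.isProj_range _ (show IsIdempotentElem (E * Q) from hF2)).trace]
    at htr2
  set b₁ := Module.finrank K (LinearMap.range (E * P)) with hb₁
  set b₂ := Module.finrank K (LinearMap.range (E * Q)) with hb₂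
  have hb₁0 : b₁ ≠ 0 := by
    intro h
    have h3 : LinearMap.trace K V (E * P) = 0 := by
      rw [(LinearMap.IsIdempotentElem.isProj_range _
        (show IsIdempotentElem (E * P) from hF1)).trace, ← hb₁, h, Nat.cast_zero]
    have h4 := (LinearMap.IsIdempotentElem.trace_eq_zero_iff
      (show IsIdempotentElem (E * P) from hF1)).1 h3
    apply hp0
    rw [hP, mul_smul_comm] at h4
    rcases smul_eq_zero.1 h4 with h5 | h5
    · exact absurd h5 (inv_ne_zero h2)
    · exact h5
  have hb₂0 : b₂ ≠ 0 := by
    intro h
    have h3 : LinearMap.trace K V (E * Q) = 0 := by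
      rw [(LinearMap.IsIdempotentElem.isProj_range _
        (show IsIdempotentElem (E * Q) from hF2)).trace, ← hb₂, h, Nat.cast_zero]
    have h4 := (LinearMap.IsIdempotentElem.trace_eq_zero_iff
      (show IsIdempotentElem (E * Q) from hF2)).1 h3
    apply hq0
    rw [hQ, mul_smul_comm] at h4
    rcases smul_eq_zero.1 h4 with h5 | h5
    · exact absurd h5 (inv_ne_zero h2)
    · exact h5
  have hkey : ε * ((t₁ * b₂ + t₂ * b₁ : ℕ) : K) = 0 := by
    simp only [smul_eq_mul] at htr1 htr2
    push_cast
    calc ε * ((t₁ : K) * b₂ + t₂ * b₁) = (ε * t₁) * b₂ + (ε * t₂) * b₁ := by ring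
      _ = 0 := by rw [← htr1, ← htr2, hαβ]; ring
  have hnat : t₁ * b₂ + t₂ * b₁ = 0 := by
    rcases mul_eq_zero.1 hkey with h | h
    · exact absurd h hε0
    · exact_mod_cast h
  have ht₁0 : t₁ = 0 := by
    rcases Nat.eq_zero_of_add_eq_zero_right hnat |> Nat.mul_eq_zero.1 with h | h
    · exact h
    · exact absurd h hb₂0
  have ht₂0 : t₂ = 0 := by
    rcases Nat.eq_zero_of_add_eq_zero_left hnat |> Nat.mul_eq_zero.1 with h | h
    · exact h
    · exact absurd h hb₁0
  have hsum : T * ∑ j, i j E = (n : K) • T := by
    rw [Finset.mul_sum]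
    rw [Finset.sum_congr rfl fun j _ => (hTE j).1]
    simp [Nat.cast_smul_eq_nsmul]
  have hzero : T * ∑ j, i j E = 0 := by
    have h3 : ∀ j, i j E = i j (E * P) + i j (E * Q) := by
      intro j
      rw [← map_add, ← mul_add, hPQ, mul_one]
    simp only [h3]
    rw [Finset.sum_add_distrib, mul_add, ht₁' ht₁0, ht₂' ht₂0, add_zero]
  rw [hzero] at hsum
  rcases smul_eq_zero.1 hsum.symm with h | h
  · have : n = 0 := by exact_mod_cast h
    omega
  · exact hT0 h

end Pool.Agent.Helper68K9.NT
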