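import Pool.Agent.Helper3K9.NT.Stm
import Pool.Agent.Helper68K9.NT.Lin

set_option autoImplicit false

/-!
# SCA, POS, ABS
-/

namespace Pool.Agent.Helper68K9.NT

open Pool.Agent.Helper3K9.NT

universe v

theorem sca : S_SCA.{v} := by
  intro K _ _ V _ _ _ s E C hs hsE hE _ hCE _ hz
  exact sca' s E C hs hsE hE hCE hz

theorem pos : S_POS.{v} := by
  intro K _ _ U _ _ _ n e T hT he hc hTD
  exact pos' n e T hT he hc hTD

theorem abs : S_ABS.{v} := by
  intro K _ _ V U _ _ _ _ _ _ s E C S T n i ε hn hs hsE hE hsC hT hT0 hε hST hi hTE hTD htr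
  exact abs' s E C S T n i ε hn hs hsE hE hsC hT hT0 hε hST hi hTE hTD htr

end Pool.Agent.Helper68K9.NT
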