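import Pool.Agent.Helper3K9.NT.Basic2
import Pool.Agent.H914R2.ExtOp

/-!
# TEN, SPN
-/

set_option autoImplicit false

open CategoryTheory AlgebraicGeometry

universe u v w

namespace Pool.Agent.Helper68K9.NT

open Pool.Agent.H914 VarClass Obj WeilCohomology Pool.Agent.Helper9K9.DT Pool.Agent.Helper3K9.NT

theorem ten : S_TEN.{u, v} := by
  intro k _ 𝒱 ops W X Y c d _ hd
  apply box_ext
  intro i j x _ y _
  rw [opT_box]
  change W.corr (W.map (q1 X Y) c * W.map (q2 X Y) d) (box W x y) = box W (W.corr c x) (W.corr d y)
  refine par_induction (P := fun d => W.corr (W.map (q1 X Y) c * W.map (q2 X Y) d) (box W x y) =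
    box W (W.corr c x) (W.corr d y)) ?_ ?_ ?_ hd
  · intro l a ha
    rw [add_zero] at ha
    exact corr_ext c ha x y
  · rw [map_zero, mul_zero, corr_zero, corr_zero, LinearMap.zero_apply, LinearMap.zero_apply,
      box_zero_right]
  · intro a b ha hb
    rw [map_add, mul_add, corr_add, corr_add, LinearMap.add_apply, LinearMap.add_apply, ha, hb,
      box_add_right]

theorem spn : S_SPN.{u, v} := by
  intro k _ 𝒱 ops W X m
  induction m with
  | zero =>
    intro V _ _ L L' h
    apply ext_par (X := X)
    · intro x hx
      have := h (fun _ => 0) (fun _ => x) (fun _ => hx)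
      rwa [ext_zero] at this
    · intro x hx
      have := h (fun _ => 1) (fun _ => x) (fun _ => hx)
      rwa [ext_zero] at this
  | succ m ih =>
    intro V _ _ L L' h
    apply box_ext_par (X := X) (Y := pw X m)
    intro p q x hx y _
    have h1 := ih V (L ∘ₗ (LinearMap.mulLeft W.K (W.map (fst X (pw X m)) x)) ∘ₗ
      (W.map (snd X (pw X m))).toLinearMap) (L' ∘ₗ (LinearMap.mulLeft W.K
        (W.map (fst X (pw X m)) x)) ∘ₗ (W.map (snd X (pw X m))).toLinearMap) (by
      intro π a ha
      have h2 := h (Fin.cons p π) (Fin.cons x a) (by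
        intro i
        refine Fin.cases ?_ (fun i => ?_) i
        · simpa using hx
        · simpa using ha i)
      rw [ext_succ] at h2
      simp only [Fin.cons_zero, Fin.cons_succ] at h2
      exact h2)
    exact congrArg (fun F => F y) h1

end Pool.Agent.Helper68K9.NT
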